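import Pool.Agent.N563.LSP.Stm
set_option autoImplicit false

/-! # The weighted inequality in several variables (helper93) -/

open MeasureTheory Set
open scoped ENNReal

namespace Pool.Agent.N93.LSP

open Pool.Agent.TH280.LS Pool.Agent.N563.LSP

/-- joining the coordinates -/
def cs {m : ℕ} (z : ℝ × (Fin m → ℝ)) : Fin (m + 1) → ℝ := Fin.cons z.1 z.2

lemma cs_eq {m : ℕ} (z : ℝ × (Fin m → ℝ)) :
    cs z = (MeasurableEquiv.piFinSuccAbove (fun _ : Fin (m + 1) => ℝ) 0).symm z := by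
  funext i
  refine Fin.cases ?_ (fun i => ?_) i <;> rfl

lemma mp_symm (m : ℕ) : MeasurePreserving
    (MeasurableEquiv.piFinSuccAbove (fun _ : Fin (m + 1) => ℝ) 0).symm
    ((volume : Measure ℝ).prod (volume : Measure (Fin m → ℝ))) volume :=
  (volume_preserving_piFinSuccAbove (fun _ : Fin (m + 1) => ℝ) 0).symm

lemma cs_meas (m : ℕ) : Measurable (cs : ℝ × (Fin m → ℝ) → Fin (m + 1) → ℝ) := by
  have : (cs : ℝ × (Fin m → ℝ) → Fin (m + 1) → ℝ) =
      (MeasurableEquiv.piFinSuccAbove (fun _ : Fin (m + 1) => ℝ) 0).symm := by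
    funext z
    exact cs_eq z
  rw [this]
  exact MeasurableEquiv.measurable _

lemma lint_cs {m : ℕ} (F : (Fin (m + 1) → ℝ) → ℝ≥0∞) :
    ∫⁻ y, F y = ∫⁻ z : ℝ × (Fin m → ℝ), F (cs z) ∂((volume : Measure ℝ).prod volume) := by
  rw [← (mp_symm m).map_eq, lintegral_map_equiv]
  refine lintegral_congr fun z => ?_
  rw [cs_eq]

lemma int_cs {m : ℕ} (F : (Fin (m + 1) → ℝ) → ℂ) :
    ∫ y, F y = ∫ z : ℝ × (Fin m → ℝ), F (cs z) ∂((volume : Measure ℝ).prod volume) := by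
  rw [← (mp_symm m).integral_comp']
  refine integral_congr_ae (Filter.Eventually.of_forall fun z => ?_)
  dsimp only
  rw [cs_eq]

lemma intble_cs {m : ℕ} {F : (Fin (m + 1) → ℝ) → ℂ} (hF : Integrable F) :
    Integrable (fun z : ℝ × (Fin m → ℝ) => F (cs z)) ((volume : Measure ℝ).prod volume) := by
  have h := ((mp_symm m).integrable_comp_emb (MeasurableEquiv.measurableEmbedding _)).2 hF
  refine h.congr (Filter.Eventually.of_forall fun z => ?_)
  simp only [Function.comp_apply]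
  rw [cs_eq]

lemma zero_case (p C : ℝ) (H : (Fin 0 → ℝ) → ℂ) :
    ∫⁻ y : Fin 0 → ℝ, ‖∫ η : Fin 0 → ℝ, e (∑ i, y i * η i) * H η‖ₑ ^ p ≤
    ENNReal.ofReal (C ^ 0) * ∫⁻ η : Fin 0 → ℝ,
      ENNReal.ofReal ((∏ i, |η i|) ^ (p - 2)) * ‖H η‖ₑ ^ p := by
  rw [volume_pi, Measure.pi_of_empty (fun _ : Fin 0 => (volume : Measure ℝ)) 0]
  simp [e_zero]

section step

variable {m : ℕ} {p C : ℝ}

/-- the integral over the last variables -/
noncomputable def H1 (G : ℝ × (Fin m → ℝ) → ℂ) (y : Fin m → ℝ) (η0 : ℝ) : ℂ :=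
  ∫ η : Fin m → ℝ, e (∑ i, y i * η i) * G (η0, η)

lemma ph_meas : Measurable (fun q : (Fin m → ℝ) × (ℝ × (Fin m → ℝ)) =>
    e (∑ i, q.1 i * q.2.2 i)) := by
  refine (continuous_e.comp ?_).measurable
  fun_prop

lemma H1_meas {G : ℝ × (Fin m → ℝ) → ℂ} (hG : Measurable G) :
    Measurable (fun q : (Fin m → ℝ) × ℝ => H1 G q.1 q.2) := by
  have h : StronglyMeasurable (Function.uncurry fun (q : (Fin m → ℝ) × ℝ) (η : Fin m → ℝ) =>
      e (∑ i, q.1 i * η i) * G (q.2, η)) := by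
    refine Measurable.stronglyMeasurable ?_
    refine Measurable.mul ?_ ?_
    · refine (continuous_e.comp ?_).measurable
      fun_prop
    · exact hG.comp ((measurable_snd.comp measurable_fst).prodMk measurable_snd)
  exact h.integral_prod_right.measurable

lemma H1_int {G : ℝ × (Fin m → ℝ) → ℂ}
    (hi : Integrable G ((volume : Measure ℝ).prod volume)) (y : Fin m → ℝ) :
    Integrable (H1 G y) := by
  have h : Integrable (fun w : ℝ × (Fin m → ℝ) => e (∑ i, y i * w.2 i) * G w)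
      ((volume : Measure ℝ).prod volume) := by
    refine hi.bdd_mul (c := 1) (Continuous.aestronglyMeasurable ?_) ?_
    · exact continuous_e.comp (by fun_prop)
    · exact Filter.Eventually.of_forall fun a => (norm_e _).le
  exact h.integral_prod_left

lemma F_eq {G : ℝ × (Fin m → ℝ) → ℂ} (hi : Integrable G ((volume : Measure ℝ).prod volume))
    (y0 : ℝ) (y : Fin m → ℝ) :
    ∫ w : ℝ × (Fin m → ℝ), e (y0 * w.1 + ∑ i, y i * w.2 i) * G w
      ∂((volume : Measure ℝ).prod volume) = ∫ η0 : ℝ, e (y0 * η0) * H1 G y η0 := by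
  have h : Integrable (fun w : ℝ × (Fin m → ℝ) => e (y0 * w.1 + ∑ i, y i * w.2 i) * G w)
      ((volume : Measure ℝ).prod volume) := by
    refine hi.bdd_mul (c := 1) (Continuous.aestronglyMeasurable ?_) ?_
    · exact continuous_e.comp (by fun_prop)
    · exact Filter.Eventually.of_forall fun a => (norm_e _).le
  rw [integral_prod _ h]
  refine integral_congr_ae (Filter.Eventually.of_forall fun η0 => ?_)
  dsimp only
  unfold H1
  rw [← integral_const_mul]
  refine integral_congr_ae (Filter.Eventually.of_forall fun η => ?_)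
  dsimp only
  rw [e_add, mul_assoc]

lemma F_meas {G : ℝ × (Fin m → ℝ) → ℂ} (hG : Measurable G) :
    Measurable (fun z : ℝ × (Fin m → ℝ) => ∫ η0 : ℝ, e (z.1 * η0) * H1 G z.2 η0) := by
  have h1 : Measurable (fun q : (ℝ × (Fin m → ℝ)) × ℝ => e (q.1.1 * q.2)) := by
    have hc : Continuous (fun q : (ℝ × (Fin m → ℝ)) × ℝ => q.1.1 * q.2) := by fun_prop
    exact (continuous_e.comp hc).measurable
  have h3 : Measurable (fun q : (ℝ × (Fin m → ℝ)) × ℝ => (q.1.2, q.2)) := by fun_prop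
  have h2 : Measurable (fun q : (ℝ × (Fin m → ℝ)) × ℝ => H1 G q.1.2 q.2) :=
    Measurable.comp (g := fun q : (Fin m → ℝ) × ℝ => H1 G q.1 q.2)
      (f := fun q : (ℝ × (Fin m → ℝ)) × ℝ => (q.1.2, q.2)) (H1_meas hG) h3
  have h : StronglyMeasurable (Function.uncurry fun (z : ℝ × (Fin m → ℝ)) (η0 : ℝ) =>
      e (z.1 * η0) * H1 G z.2 η0) := (h1.mul h2).stronglyMeasurable
  exact h.integral_prod_right.measurable

lemma step (hp : 2 < p) (hC : 0 < C)
    (h1 : ∀ H : ℝ → ℂ, Integrable H → ∫⁻ y : ℝ, ‖∫ η : ℝ, e (y * η) * H η‖ₑ ^ p ≤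
      ENNReal.ofReal C * ∫⁻ η : ℝ, ENNReal.ofReal (|η| ^ (p - 2)) * ‖H η‖ₑ ^ p)
    (ih : ∀ H : (Fin m → ℝ) → ℂ, Integrable H →
      ∫⁻ y : Fin m → ℝ, ‖∫ η : Fin m → ℝ, e (∑ i, y i * η i) * H η‖ₑ ^ p ≤
      ENNReal.ofReal (C ^ m) * ∫⁻ η : Fin m → ℝ,
        ENNReal.ofReal ((∏ i, |η i|) ^ (p - 2)) * ‖H η‖ₑ ^ p)
    (G : ℝ × (Fin m → ℝ) → ℂ) (hG : Measurable G)
    (hi : Integrable G ((volume : Measure ℝ).prod volume)) :
    ∫⁻ z : ℝ × (Fin m → ℝ), ‖∫ w : ℝ × (Fin m → ℝ), e (z.1 * w.1 + ∑ i, z.2 i * w.2 i) * G w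
      ∂((volume : Measure ℝ).prod volume)‖ₑ ^ p ∂((volume : Measure ℝ).prod volume) ≤
    ENNReal.ofReal (C ^ (m + 1)) * ∫⁻ w : ℝ × (Fin m → ℝ),
      ENNReal.ofReal ((|w.1| * ∏ i, |w.2 i|) ^ (p - 2)) * ‖G w‖ₑ ^ p
        ∂((volume : Measure ℝ).prod volume) := by
  have hm1 : Measurable (fun q : (Fin m → ℝ) × ℝ => ‖H1 G q.1 q.2‖ₑ ^ p) :=
    (H1_meas hG).enorm.pow_const p
  calc ∫⁻ z : ℝ × (Fin m → ℝ), ‖∫ w : ℝ × (Fin m → ℝ),
        e (z.1 * w.1 + ∑ i, z.2 i * w.2 i) * G w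
        ∂((volume : Measure ℝ).prod volume)‖ₑ ^ p ∂((volume : Measure ℝ).prod volume)
      = ∫⁻ z : ℝ × (Fin m → ℝ), ‖∫ η0 : ℝ, e (z.1 * η0) * H1 G z.2 η0‖ₑ ^ p
          ∂((volume : Measure ℝ).prod volume) := by
        refine lintegral_congr fun z => ?_
        rw [F_eq hi]
    _ = ∫⁻ y : Fin m → ℝ, ∫⁻ y0 : ℝ, ‖∫ η0 : ℝ, e (y0 * η0) * H1 G y η0‖ₑ ^ p := by
        rw [lintegral_prod_symm _ ((F_meas hG).enorm.pow_const p).aemeasurable]
    _ ≤ ∫⁻ y : Fin m → ℝ, ENNReal.ofReal C *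
          ∫⁻ η0 : ℝ, ENNReal.ofReal (|η0| ^ (p - 2)) * ‖H1 G y η0‖ₑ ^ p :=
        lintegral_mono fun y => h1 _ (H1_int hi y)
    _ = ENNReal.ofReal C * ∫⁻ y : Fin m → ℝ,
          ∫⁻ η0 : ℝ, ENNReal.ofReal (|η0| ^ (p - 2)) * ‖H1 G y η0‖ₑ ^ p :=
        lintegral_const_mul' _ _ ENNReal.ofReal_ne_top
    _ = ENNReal.ofReal C * ∫⁻ η0 : ℝ, ∫⁻ y : Fin m → ℝ,
          ENNReal.ofReal (|η0| ^ (p - 2)) * ‖H1 G y η0‖ₑ ^ p := by
        congr 1
        refine lintegral_lintegral_swap (Measurable.aemeasurable ?_)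
        refine Measurable.mul ?_ hm1
        refine ENNReal.measurable_ofReal.comp ?_
        exact (measurable_snd.norm.pow_const (p - 2))
    _ = ENNReal.ofReal C * ∫⁻ η0 : ℝ, ENNReal.ofReal (|η0| ^ (p - 2)) *
          ∫⁻ y : Fin m → ℝ, ‖H1 G y η0‖ₑ ^ p := by
        congr 1
        refine lintegral_congr fun η0 => ?_
        exact lintegral_const_mul' _ _ ENNReal.ofReal_ne_top
    _ ≤ ENNReal.ofReal C * ∫⁻ η0 : ℝ, ENNReal.ofReal (|η0| ^ (p - 2)) *
          (ENNReal.ofReal (C ^ m) * ∫⁻ η : Fin m → ℝ,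
            ENNReal.ofReal ((∏ i, |η i|) ^ (p - 2)) * ‖G (η0, η)‖ₑ ^ p) := by
        refine mul_le_mul' le_rfl (lintegral_mono_ae ?_)
        filter_upwards [hi.prod_right_ae] with η0 hη
        exact mul_le_mul' le_rfl (ih _ hη)
    _ = ENNReal.ofReal C * (ENNReal.ofReal (C ^ m) * ∫⁻ η0 : ℝ, ∫⁻ η : Fin m → ℝ,
          ENNReal.ofReal ((|η0| * ∏ i, |η i|) ^ (p - 2)) * ‖G (η0, η)‖ₑ ^ p) := by
        congr 1
        rw [← lintegral_const_mul' _ _ ENNReal.ofReal_ne_top]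
        refine lintegral_congr fun η0 => ?_
        rw [mul_left_comm]
        congr 1
        rw [← lintegral_const_mul' _ _ ENNReal.ofReal_ne_top]
        refine lintegral_congr fun η => ?_
        rw [← mul_assoc, ← ENNReal.ofReal_mul (by positivity),
          Real.mul_rpow (abs_nonneg _) (Finset.prod_nonneg fun i _ => abs_nonneg _)]
    _ = ENNReal.ofReal (C ^ (m + 1)) * ∫⁻ w : ℝ × (Fin m → ℝ),
          ENNReal.ofReal ((|w.1| * ∏ i, |w.2 i|) ^ (p - 2)) * ‖G w‖ₑ ^ p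
            ∂((volume : Measure ℝ).prod volume) := by
        rw [← mul_assoc, ← ENNReal.ofReal_mul hC.le, ← pow_succ']
        congr 1
        rw [lintegral_prod]
        refine Measurable.aemeasurable ?_
        refine Measurable.mul ?_ (hG.enorm.pow_const p)
        refine ENNReal.measurable_ofReal.comp (Measurable.pow_const ?_ _)
        refine Measurable.mul measurable_fst.norm ?_
        exact Finset.measurable_prod _ fun i _ =>
          ((measurable_pi_apply i).comp measurable_snd).norm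

end step

/-- **EM** -/
theorem em_ (h1 : S_E1) : S_EM := by
  intro p hp
  obtain ⟨C, hC, hE⟩ := h1 p hp
  refine ⟨C, hC, fun m => ?_⟩
  induction m with
  | zero => exact fun H _ => zero_case p C H
  | succ m ih =>
    intro H hH
    have hmk := hH.1.ae_eq_mk
    have hH' : Integrable (hH.1.mk H) := hH.congr hmk
    have hm := hH.1.stronglyMeasurable_mk.measurable
    have key := step hp hC hE ih (fun z => hH.1.mk H (cs z)) (hm.comp (cs_meas m))
      (intble_cs hH')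
    have e1 : ∀ y : Fin (m + 1) → ℝ, ∫ η : Fin (m + 1) → ℝ, e (∑ i, y i * η i) * H η =
        ∫ η : Fin (m + 1) → ℝ, e (∑ i, y i * η i) * (hH.1.mk H) η := by
      intro y
      refine integral_congr_ae ?_
      filter_upwards [hmk] with η h
      rw [h]
    have e2 : ∫⁻ η : Fin (m + 1) → ℝ,
        ENNReal.ofReal ((∏ i, |η i|) ^ (p - 2)) * ‖H η‖ₑ ^ p =
        ∫⁻ η : Fin (m + 1) → ℝ,
        ENNReal.ofReal ((∏ i, |η i|) ^ (p - 2)) * ‖(hH.1.mk H) η‖ₑ ^ p := by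
      refine lintegral_congr_ae ?_
      filter_upwards [hmk] with η h
      rw [h]
    rw [e2]
    simp_rw [e1]
    rw [lint_cs, lint_cs]
    refine le_trans (le_of_eq ?_) (key.trans (le_of_eq ?_))
    · refine lintegral_congr fun z => ?_
      rw [int_cs]
      simp only [cs, Fin.sum_univ_succ, Fin.cons_zero, Fin.cons_succ]
    · congr 1
      refine lintegral_congr fun w => ?_
      simp only [cs, Fin.prod_univ_succ, Fin.cons_zero, Fin.cons_succ]

end Pool.Agent.N93.LSP
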